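import Pool.Agent.Q92.SF.Row1

/-!
# The rank one Stark conjecture for mixed signature characters: the fields which suffice
-/

set_option autoImplicit false

namespace Pool.Agent.Results.MP_c49e96_nt.FieldsThatSuffice

open NumberField Pool.Agent.Q20.RS Pool.Agent.Q20.SI Pool.Agent.Q92.SD Pool.Agent.Q92.SF

/-- **Theorem.** Let `F` be a number field (real quadratic in the question) and `S` a finite set of primes.
(1) For `N ≥ 1` there are finite extensions `E_j` of `F` and integers `n_j`, such that for each `j`, for a
prime `p`, the prime-to-`p` part of `N` divides all local degrees of `E_j` above `S`, and such that for the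
data `(K, S, v, χ)` of the question: `Q1` holds if and only if `∏ d_σ(χ|E_j)^{n_j} = 1` for all automorphisms
`σ` of `ℂ` over `ℚ(χ)`; it holds for `χ` and its conjugates simultaneously if and only if this holds for all
automorphisms `σ` of `ℂ`.
(2) `Q1` holds for all the data over `F` if the rational Rubin–Stark conjecture holds for the cyclic data over
the finite extensions of `F` whose local degrees above `q ∈ S` belong to `D q`, sets closed under multiples
without common divisor.
(3) `Q1` holds for all the data over `F` if the rational Rubin–Stark conjecture holds for the cyclic data over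
the extensions of degree divisible by `p ^ k` generated by `p`-th roots of products of primes of `T`,
`p = p₁, p₂`, for an infinite set `T` of primes. -/
theorem result (S : Finset ℕ) (hS : ∀ q ∈ S, q.Prime) (F : Type) [Field F] [NumberField F] :
    (∀ N : ℕ, N ≠ 0 → ∃ 𝔈 : FieldFam F, 𝔈.Large S N ∧ ∀ (K : Type) [Field K] [NumberField K]
      [Algebra F K] [IsGalois F K] (D : MixData F K),
      (D.Q1 ↔ ∀ σ : ℂ ≃+* ℂ, (∀ g, σ (cf D.χ g) = cf D.χ g) → 𝔈.RelAt D.χ σ) ∧
      (D.Q1Conj ↔ ∀ σ : ℂ ≃+* ℂ, 𝔈.RelAt D.χ σ)) ∧
    LocSuf F S (∀ (K : Type) [Field K] [NumberField K] [Algebra F K]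
      [IsGalois F K] (D : MixData F K), D.Q1Conj) ∧
    RadSuf F (∀ (K : Type) [Field K] [NumberField K] [Algebra F K]
      [IsGalois F K] (D : MixData F K), D.Q1Conj) :=
  ⟨fun _ hN => mix_fam hS hN, locSuf_of F _ S hS fun h _ => fun D => (mix_iff_conj D).2 fun σ => h _ D.χ σ,
    radSuf_of F _ fun h _ => fun D => (mix_iff_conj D).2 fun σ => h _ D.χ σ⟩

end Pool.Agent.Results.MP_c49e96_nt.FieldsThatSuffice
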