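import Pool.Agent.Q20.SI.Rel

/-!
# The rational rank one Stark conjecture for mixed signature characters
-/

set_option autoImplicit false

namespace Pool.Agent.Results.MP_c49e96_nt.MixedSignatureRankOne

open NumberField Pool.Agent.Q20.RS Pool.Agent.Q20.SI

/-- **Theorem.** Let `F` be a number field (real quadratic in the question).
(1) For all the data `(K, S, v, χ)` of the question, `Q1` holds if and only if Stark's equality
`A(χ)^σ = A(χ^σ)` holds for all automorphisms `σ` of `ℂ` over `ℚ(χ)`; it holds for `χ` and its conjugates
simultaneously if and only if the equality holds for all automorphisms `σ` of `ℂ`.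
(2) For every smooth linear character `ψ` of `Gal(F̄/F)` there is a trivial or quadratic character
`η` which is trivial on the decomposition groups at the finite places where `ψ` is ramified, such that
`ψη` is totally odd, and, if `η ≠ 1`, finite extensions `F₁, F₂ ⊆ F₃` of `F` over which `ψ` becomes
unramified at all finite places, with `ψ + Ind ψ|F₃ = ψη + Ind ψ|F₁ + Ind ψ|F₂`, such that Stark's equality
holds for `ψ` and `σ` if and only if `d(ψη) d(ψ|F₁) d(ψ|F₂) = d(ψ|F₃)`, `d(χ) = A(χ)^σ / A(χ^σ)`.
(3) If Stark's conjecture of order `r` holds for the cyclic extensions `L/E` which are unramified at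
all finite places, `E` finite over `F`, and for the cyclic extensions `L/F` with
`r = r₂(F)` (for totally real `F` this is the theorem of Klingen and Siegel), then `Q1` holds for all
the data, for `χ` and its conjugates simultaneously. -/
theorem result (F : Type) [Field F] [NumberField F] :
    (∀ (K : Type) [Field K] [NumberField K] [Algebra F K] [IsGalois F K] (D : MixData F K),
      (D.Q1 ↔ ∀ σ : ℂ ≃+* ℂ, (∀ g, σ (cf D.χ g) = cf D.χ g) → StarkChar D.χ σ) ∧
      (D.Q1Conj ↔ ∀ σ : ℂ ≃+* ℂ, StarkChar D.χ σ)) ∧
    (∀ ψ : RL.Lin (base F), ψ.smooth → OddRelation ψ) ∧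
    (UnramifiedCase F → MinimalCase F → ∀ (K : Type) [Field K] [NumberField K] [Algebra F K]
      [IsGalois F K] (D : MixData F K), D.Q1Conj) :=
  ⟨fun _ _ _ _ _ D => ⟨mix_iff D, mix_iff_conj D⟩, fun _ hψ => odd_relation hψ,
    fun hU hM _ _ _ _ _ D => mix_all hU hM D⟩

end Pool.Agent.Results.MP_c49e96_nt.MixedSignatureRankOne
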